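import Pool.Agent.Work.MP_880652_co.Defs

set_option autoImplicit false

namespace Pool.Agent.Work.MP_880652_co

/-- Indicator of `a < b` on naturals. -/
def indN (a b : ℕ) : ℕ := cond (Nat.blt a b) 1 0

/-- Agreement count read from the list of positions. -/
def gl : List ℕ → ℕ
  | [a0, a1, a2, a3, a4, a5, a6] =>
    indN a0 a3 + indN a0 a4 + indN a0 a6 + indN a1 a3 + indN a1 a5 + indN a1 a6 + indN a2 a4
      + indN a2 a5 + indN a2 a6 + indN a3 a6
  | _ => 0

theorem ind_eq (a b : Fin 7) : ind a b = indN a.val b.val := by
  revert a b; decide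

theorem g_eq (σ : Equiv.Perm (Fin 7)) : g σ = gl (List.ofFn (fun i => (σ i).val)) := by
  simp only [List.ofFn_succ, List.ofFn_zero, gl, g, agree, ind_eq]
  rfl

theorem card_eq (i : ℕ) : (Finset.univ.filter (fun σ : Equiv.Perm (Fin 7) => g σ = i)).card
    = ((List.range 7).permutations'.filter (fun l => Nat.beq (gl l) i)).length := by
  have hnd : (List.range 7).permutations'.Nodup :=
    (List.permutations_perm_permutations' _).nodup_iff.1
      (List.nodup_permutations _ List.nodup_range)
  rw [← List.toFinset_card_of_nodup (hnd.filter _)]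
  refine Finset.card_bij (fun σ _ => List.ofFn (fun i => (σ i).val)) ?_ ?_ ?_
  · intro σ hσ
    simp only [Finset.mem_filter, Finset.mem_univ, true_and] at hσ
    simp only [List.mem_toFinset, List.mem_filter, List.mem_permutations', Nat.beq_eq]
    refine ⟨?_, by rw [← g_eq, hσ]⟩
    have h1 := (Equiv.Perm.ofFn_comp_perm σ (fun i : Fin 7 => i.val))
    have h2 : List.ofFn (fun i : Fin 7 => i.val) = List.range 7 := by decide
    rw [h2] at h1
    exact h1
  · intro σ _ τ _ h
    have := List.ofFn_injective h
    ext x
    exact congrFun this x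
  · intro l hl
    simp only [List.mem_toFinset, List.mem_filter, List.mem_permutations', Nat.beq_eq] at hl
    obtain ⟨hp, hg⟩ := hl
    have hlen : l.length = 7 := by simpa using hp.length_eq
    have hnd' : l.Nodup := hp.nodup_iff.2 List.nodup_range
    have hlt : ∀ x ∈ l, x < 7 := fun x hx => List.mem_range.1 (hp.subset hx)
    let f : Fin 7 → Fin 7 := fun j => ⟨l[j.val]'(by omega), hlt _ (List.getElem_mem _)⟩
    have hf : Function.Injective f := by
      intro j k hjk
      have h1 : l[j.val]'(by omega) = l[k.val]'(by omega) := congrArg Fin.val hjk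
      exact Fin.ext ((List.Nodup.getElem_inj_iff hnd').1 h1)
    let σ : Equiv.Perm (Fin 7) := Equiv.ofBijective f (Finite.injective_iff_bijective.1 hf)
    have hσ : List.ofFn (fun i => (σ i).val) = l := by
      apply List.ext_getElem
      · simp [hlen]
      · intro n h1 h2
        rw [List.getElem_ofFn]
        rfl
    refine ⟨σ, ?_, hσ⟩
    simp only [Finset.mem_filter, Finset.mem_univ, true_and]
    rw [g_eq, hσ, hg]

private theorem count_all :
    ((List.range 7).permutations'.filter (fun l => Nat.beq (gl l) 4)).length = 792 ∧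
    ((List.range 7).permutations'.filter (fun l => Nat.beq (gl l) 5)).length = 764 ∧
    ((List.range 7).permutations'.filter (fun l => Nat.beq (gl l) 6)).length = 792 := by
  decide +kernel

theorem count4 : (Finset.univ.filter (fun σ : Equiv.Perm (Fin 7) => g σ = 4)).card = 792 := by
  rw [card_eq]; exact count_all.1

theorem count5 : (Finset.univ.filter (fun σ : Equiv.Perm (Fin 7) => g σ = 5)).card = 764 := by
  rw [card_eq]; exact count_all.2.1

theorem count6 : (Finset.univ.filter (fun σ : Equiv.Perm (Fin 7) => g σ = 6)).card = 792 := by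
  rw [card_eq]; exact count_all.2.2

end Pool.Agent.Work.MP_880652_co
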