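import Mathlib

set_option autoImplicit false

namespace Pool.Agent.Work.MP_880652_co

/-- The strict order of the seven point poset: the crown on 0,1,2 below 3,4,5, and 6 above 0,1,2,3. -/
def rel (x y : Fin 7) : Bool :=
  decide ((x.val, y.val) ∈
    [(0, 3), (1, 3), (0, 4), (2, 4), (1, 5), (2, 5), (0, 6), (1, 6), (2, 6), (3, 6)])

/-- The poset as an order on `Fin 7`. -/
@[reducible] def po : PartialOrder (Fin 7) where
  le x y := x = y ∨ rel x y = true
  lt x y := rel x y = true
  le_refl _ := Or.inl rfl
  le_trans := by decide
  le_antisymm := by decide
  lt_iff_le_not_ge := by decide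

/-- Indicator of `a < b`. -/
def ind (a b : Fin 7) : ℕ := if a < b then 1 else 0

/-- Number of agreeing pairs from the seven positions. -/
def agree (a0 a1 a2 a3 a4 a5 a6 : Fin 7) : ℕ :=
  ind a0 a3 + ind a0 a4 + ind a0 a6 + ind a1 a3 + ind a1 a5 + ind a1 a6 + ind a2 a4 + ind a2 a5
    + ind a2 a6 + ind a3 a6

/-- Number of comparable pairs that agree with the linear order given by `σ`. -/
def g (σ : Equiv.Perm (Fin 7)) : ℕ :=
  agree (σ 0) (σ 1) (σ 2) (σ 3) (σ 4) (σ 5) (σ 6)

theorem card_pairs (σ : Equiv.Perm (Fin 7)) :
    (Finset.univ.filter (fun p : Fin 7 × Fin 7 => rel p.1 p.2 = true ∧ σ p.1 < σ p.2)).card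
      = g σ := by
  rw [Finset.card_filter, Fintype.sum_prod_type]
  unfold g agree ind
  simp only [Fin.sum_univ_seven]
  simp only [show rel 0 0 = false from by decide, show rel 0 1 = false from by decide,
    show rel 0 2 = false from by decide, show rel 0 3 = true from by decide,
    show rel 0 4 = true from by decide, show rel 0 5 = false from by decide,
    show rel 0 6 = true from by decide,
    show rel 1 0 = false from by decide, show rel 1 1 = false from by decide,
    show rel 1 2 = false from by decide, show rel 1 3 = true from by decide,
    show rel 1 4 = false from by decide, show rel 1 5 = true from by decide,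
    show rel 1 6 = true from by decide,
    show rel 2 0 = false from by decide, show rel 2 1 = false from by decide,
    show rel 2 2 = false from by decide, show rel 2 3 = false from by decide,
    show rel 2 4 = true from by decide, show rel 2 5 = true from by decide,
    show rel 2 6 = true from by decide,
    show rel 3 0 = false from by decide, show rel 3 1 = false from by decide,
    show rel 3 2 = false from by decide, show rel 3 3 = false from by decide,
    show rel 3 4 = false from by decide, show rel 3 5 = false from by decide,
    show rel 3 6 = true from by decide,
    show ∀ y, rel 4 y = false from by decide, show ∀ y, rel 5 y = false from by decide,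
    show ∀ y, rel 6 y = false from by decide,
    Bool.false_eq_true, false_and, true_and, if_false]
  omega

theorem card_rel :
    (Finset.univ.filter (fun p : Fin 7 × Fin 7 => rel p.1 p.2 = true)).card = 10 := by
  decide +kernel

end Pool.Agent.Work.MP_880652_co
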